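import Pool.Agent.Work.MP_a392d0_lc_helper98.M5Kap
import Mathlib.Tactic

/-!
Block M5 of `MP_a392d0_lc`, part 3: the instance and its string are computed in polynomial time.
-/

namespace Pool.Agent.Work.MP_a392d0_lc

open Pool.Agent.Work.TMLib Polynomial

/-! ### Transfer along a bijection of the job sets -/

theorem feasJ_congr {J J' : Type} (e : J ≃ J') {f p : J → ℕ} {f' p' : J' → ℕ}
    (hf : ∀ i, f' (e i) = f i) (hp : ∀ i, p' (e i) = p i) (h : FeasJ f p) : FeasJ f' p' := by
  obtain ⟨S, hS⟩ := h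
  refine ⟨fun t => e (S t), fun i => ?_⟩
  obtain ⟨h1, h2⟩ := hS (e.symm i)
  refine ⟨fun t => ?_, fun a b hab ha hb hn => ?_⟩
  · obtain ⟨b, hb, hb'⟩ := h1 t
    refine ⟨b, hb, ?_⟩
    show e (S b) = i
    rw [hb']
    simp
  · have ha' : S a = e.symm i := by rw [← ha]; simp
    have hb' : S b = e.symm i := by rw [← hb]; simp
    have h3 := h2 a b hab ha' hb'
      (fun t ht ht' hc => hn t ht ht' (by simp [hc]))
    have h4 := hf (e.symm i)
    rw [e.apply_symm_apply] at h4
    rw [h4]
    refine le_trans (le_of_eq ?_) h3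
    exact Finset.sum_congr rfl fun t _ => hp _

/-! ### Digits -/

/-- Digits `x, f 0, …, f (N-1), y, z`. -/
def dgt (N x : ℕ) (f : ℕ → ℕ) (y z : ℕ) : List ℕ := x :: (List.range N).map f ++ [y, z]

theorem ofDigits_map_range (b N : ℕ) (f : ℕ → ℕ) :
    Nat.ofDigits b ((List.range N).map f) = ∑ k ∈ Finset.range N, f k * b ^ k := by
  induction N with
  | zero => simp
  | succ N ih =>
    rw [List.range_succ, List.map_append, Nat.ofDigits_append, ih, Finset.sum_range_succ]
    simp [mul_comm]

theorem ofDigits_dgt (b N x : ℕ) (f : ℕ → ℕ) (y z : ℕ) : Nat.ofDigits b (dgt N x f y z) =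
    x + ∑ k ∈ Finset.range N, f k * b ^ (k + 1) + y * b ^ (N + 1) + z * b ^ (N + 2) := by
  unfold dgt
  rw [Nat.ofDigits_append, Nat.ofDigits_cons, ofDigits_map_range]
  simp only [List.length_cons, List.length_map, List.length_range, Nat.ofDigits_cons,
    Nat.ofDigits_nil, Finset.mul_sum]
  have : ∀ k ∈ Finset.range N, b * (f k * b ^ k) = f k * b ^ (k + 1) := fun k _ => by ring
  rw [Finset.sum_congr rfl this]
  ring

theorem mem_dgt {N x : ℕ} {f : ℕ → ℕ} {y z d : ℕ} (h : d ∈ dgt N x f y z) :
    d = x ∨ (∃ k < N, d = f k) ∨ d = y ∨ d = z := by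
  unfold dgt at h
  simp only [List.cons_append, List.mem_cons, List.mem_append, List.mem_map, List.mem_range,
    List.not_mem_nil, or_false] at h
  rcases h with h | ⟨k, hk, h⟩ | h | h
  · exact Or.inl h
  · exact Or.inr (Or.inl ⟨k, hk, h.symm⟩)
  · exact Or.inr (Or.inr (Or.inl h))
  · exact Or.inr (Or.inr (Or.inr h))

/-- Digits of `A * cc m + B * hh m`. -/
def fdg (m A B : ℕ) : List ℕ := dgt (2 * m) (23 * A) (fun _ => A) B A

theorem ofDigits_fdg (m A B : ℕ) : Nat.ofDigits (2 ^ dl m) (fdg m A B) = A * cc m + B * hh m := by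
  unfold fdg cc hh
  rw [ofDigits_dgt]
  unfold bas
  rw [mul_add, mul_add, Finset.mul_sum]
  ring

theorem fdg_lt {m A B : ℕ} (hA : A ≤ 4 * m) (hB : B ≤ 1) : ∀ d ∈ fdg m A B, d < 2 ^ dl m := by
  have h0 : dl m < 2 ^ dl m := Nat.lt_two_pow_self
  have h1 : dl m = 46 * (2 * m) + 46 := rfl
  intro d hd
  rcases mem_dgt hd with h | ⟨k, _, h⟩ | h | h <;> omega

/-! ### The jobs -/

/-- The digits of the size of an item. -/
def sdg {n m : ℕ} : Fin (2 * m) ⊕ FI n → List ℕ
  | .inl k => (List.range ((k : ℕ) + 1)).map (fun _ => 0) ++ [1]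
  | .inr i => [fs i]

/-- The code of a job: the frequency is `A * cc m + B * hh m`; digits of the duration. -/
def code (n m : ℕ) (κ : ℕ → ℕ) : FJ n m → (ℕ × ℕ) × List ℕ
  | .a => ((2, 0), dgt (2 * m) 23 (fun _ => 1) 0 1)
  | .r t => ((4 * m, 1), dgt (2 * m) (23 - κ t) (fun k => if Dd m k t then 0 else 1) 0 1)
  | .item i => ((2 * we m fw i, 1), sdg i)

theorem code_freq (n m : ℕ) (κ : ℕ → ℕ) (j : FJ n m) :
    jf n m j = (code n m κ j).1.1 * cc m + (code n m κ j).1.2 * hh m := by
  cases j with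
  | a => simp [jf, rf, code]
  | r t => simp only [jf, rf, code]; ring
  | item i => simp only [jf, rf, code]; ring

theorem sdg_val (n m : ℕ) (i : Fin (2 * m) ⊕ FI n) :
    Nat.ofDigits (2 ^ dl m) (sdg i) = se m (bas m) fs i := by
  cases i with
  | inl k =>
    simp only [sdg, se]
    rw [Nat.ofDigits_append, ofDigits_map_range]
    simp [bas]
  | inr i => simp [sdg, se]

theorem code_dur (n m : ℕ) (κ : ℕ → ℕ) (hκ : ∀ t, κ t ≤ 23) (j : FJ n m) :
    jp n m κ j = Nat.ofDigits (2 ^ dl m) (code n m κ j).2 := by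
  cases j with
  | a =>
    simp only [jp, rp, code]
    rw [ofDigits_dgt]
    unfold cc bas
    simp only [one_mul, zero_mul]
    ring
  | r t =>
    simp only [jp, rp, code]
    rw [ofDigits_dgt]
    have h1 := hκ t
    have h2 : ∑ k ∈ Finset.range (2 * m), bas m ^ (k + 1) =
        ∑ k ∈ (Finset.range (2 * m)).filter (fun k => Dd m k t), bas m ^ (k + 1) +
        ∑ k ∈ Finset.range (2 * m), (if Dd m k t then 0 else 1) * bas m ^ (k + 1) := by
      rw [Finset.sum_filter, ← Finset.sum_add_distrib]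
      refine Finset.sum_congr rfl fun k _ => ?_
      split_ifs <;> simp
    unfold cc Kf
    rw [h2]
    have h3 : bas m = 2 ^ dl m := rfl
    rw [← h3]
    omega
  | item i =>
    simp only [jp, rp, code]
    rw [sdg_val]

theorem fs_le {n : ℕ} (i : FI n) : fs i ≤ 21 := by
  cases i with
  | trk c b i => cases c <;> cases b <;> simp [fs, sb]
  | q => simp [fs]

theorem fs_pos {n : ℕ} (i : FI n) : 1 ≤ fs i := by
  cases i with
  | trk c b i => cases c <;> cases b <;> simp [fs, sb]
  | q => simp [fs]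

theorem code_lt (n m : ℕ) (κ : ℕ → ℕ) (j : FJ n m) :
    ∀ d ∈ (code n m κ j).2, d < 2 ^ dl m := by
  have h0 : dl m < 2 ^ dl m := Nat.lt_two_pow_self
  have h1 : dl m = 46 * (2 * m) + 46 := rfl
  intro d hd
  cases j with
  | a => rcases mem_dgt hd with h | ⟨k, _, h⟩ | h | h <;> omega
  | r t =>
    rcases mem_dgt hd with h | ⟨k, _, h⟩ | h | h
    · omega
    · split_ifs at h <;> omega
    · omega
    · omega
  | item i =>
    cases i with
    | inl k =>
      simp only [code, sdg, List.mem_append, List.mem_map, List.mem_singleton] at hd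
      rcases hd with ⟨_, _, h⟩ | h <;> omega
    | inr i =>
      simp only [code, sdg, List.mem_singleton] at hd
      have := fs_le i
      omega

/-- The window is bounded; `12 n ≤ m`. -/
theorem we_bd {n m : ℕ} (hn : 1 ≤ n) (hm : 12 * n ≤ m) (i : Fin (2 * m) ⊕ FI n) :
    1 ≤ we m fw i ∧ we m fw i ≤ 2 * m := by
  cases i with
  | inl k =>
    simp only [we]
    split_ifs <;> omega
  | inr i =>
    cases i with
    | trk c b i => simp only [we, fw]; omega
    | q => simp only [we, fw]; omega

theorem code_A {n m : ℕ} (hn : 1 ≤ n) (hm : 12 * n ≤ m) (κ : ℕ → ℕ) (j : FJ n m) :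
    (code n m κ j).1.1 ≤ 4 * m ∧ (code n m κ j).1.2 ≤ 1 := by
  cases j with
  | a => simp only [code]; omega
  | r t => simp only [code]; omega
  | item i =>
    have := we_bd hn hm i
    simp only [code]
    omega

/-- The four track items with index `i`. -/
def four {n : ℕ} (m : ℕ) (i : Fin n) : List (FJ n m) :=
  [.item (.inr (.trk false false i)), .item (.inr (.trk false true i)),
    .item (.inr (.trk true false i)), .item (.inr (.trk true true i))]

/-- The list of jobs. -/
def jl (n m : ℕ) : List (FJ n m) :=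
  [.a] ++ ((List.finRange n).flatMap (four m) ++ ([.item (.inr .q)] ++
    ((List.finRange (2 * m)).map (fun k => .item (.inl k)) ++
      (List.finRange (2 * m)).map (fun t => .r t))))

theorem mem_jl (n m : ℕ) (j : FJ n m) : j ∈ jl n m := by
  unfold jl four
  cases j with
  | a => simp
  | r t => simp
  | item i =>
    cases i with
    | inl k => simp
    | inr i =>
      cases i with
      | trk c b i => cases c <;> cases b <;> simp
      | q => simp

theorem nodup_jl (n m : ℕ) : (jl n m).Nodup := by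
  unfold jl
  refine List.nodup_append.2 ⟨by simp, List.nodup_append.2 ⟨?_, List.nodup_append.2 ⟨by simp,
    List.nodup_append.2 ⟨?_, ?_, ?_⟩, ?_⟩, ?_⟩, ?_⟩
  · rw [List.nodup_flatMap]
    refine ⟨fun i _ => by simp [four], ?_⟩
    refine (List.nodup_finRange n).imp ?_
    intro i j hij
    simp only [Function.onFun, List.disjoint_left, four, List.mem_cons, List.not_mem_nil, or_false]
    intro x hx hx'
    rcases hx with rfl | rfl | rfl | rfl <;> simp_all
  · exact (List.nodup_finRange _).map (fun a b h => by simpa using h)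
  · exact (List.nodup_finRange _).map (fun a b h => by simpa using h)
  · simp
  · intro x hx y hy
    simp only [List.mem_cons, List.not_mem_nil, or_false] at hx
    subst hx
    simp only [List.mem_append, List.mem_map] at hy
    rcases hy with ⟨_, _, rfl⟩ | ⟨_, _, rfl⟩ <;> simp
  · intro x hx y hy
    simp only [four, List.mem_flatMap, List.mem_cons, List.not_mem_nil, or_false] at hx
    obtain ⟨i, _, hx⟩ := hx
    simp only [List.mem_append, List.mem_cons, List.not_mem_nil, or_false, List.mem_map] at hy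
    rcases hx with rfl | rfl | rfl | rfl <;> rcases hy with rfl | ⟨_, _, rfl⟩ | ⟨_, _, rfl⟩ <;> simp
  · intro x hx y hy
    simp only [List.mem_cons, List.not_mem_nil, or_false] at hx
    subst hx
    simp only [four, List.mem_append, List.mem_flatMap, List.mem_cons, List.not_mem_nil, or_false,
      List.mem_map] at hy
    rcases hy with ⟨_, _, rfl | rfl | rfl | rfl⟩ | rfl | ⟨_, _, rfl⟩ | ⟨_, _, rfl⟩ <;> simp

/-- The rank of a job. -/
def rank (n m : ℕ) : FJ n m → ℕ
  | .a => 0
  | .r _ => 2 * m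
  | .item i => we m fw i

theorem jf_mono {n m : ℕ} (hn : 1 ≤ n) (hm : 12 * n ≤ m) {x y : FJ n m}
    (h : rank n m x ≤ rank n m y) : jf n m x ≤ jf n m y := by
  have key : ∀ w, 1 ≤ w → 2 * cc m ≤ w * (2 * cc m) + hh m := fun w hw => by
    have := Nat.mul_le_mul_right (2 * cc m) hw
    omega
  cases x with
  | a =>
    cases y with
    | a => exact le_rfl
    | r t => exact key (2 * m) (by omega)
    | item i => exact key _ (we_bd hn hm i).1
  | r t =>
    cases y with
    | a => simp only [rank] at h; omega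
    | r t => exact le_rfl
    | item i => exact Nat.add_le_add_right (Nat.mul_le_mul_right _ h) _
  | item i =>
    cases y with
    | a => have := (we_bd hn hm i).1; simp only [rank] at h; omega
    | r t => exact Nat.add_le_add_right (Nat.mul_le_mul_right _ h) _
    | item i => exact Nat.add_le_add_right (Nat.mul_le_mul_right _ h) _

theorem rank_four {n m : ℕ} {x : FJ n m} (hx : x ∈ (List.finRange n).flatMap (four m)) :
    rank n m x = 8 * n := by
  simp only [four, List.mem_flatMap, List.mem_cons, List.not_mem_nil, or_false] at hx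
  obtain ⟨i, _, hx⟩ := hx
  rcases hx with rfl | rfl | rfl | rfl <;> simp only [rank, we, fw] <;> omega

theorem sorted_jl {n m : ℕ} (hn : 1 ≤ n) (hm : 12 * n ≤ m) :
    (jl n m).Pairwise fun x y => rank n m x ≤ rank n m y := by
  unfold jl
  refine List.pairwise_append.2 ⟨by simp, List.pairwise_append.2 ⟨?_, List.pairwise_append.2
    ⟨by simp, List.pairwise_append.2 ⟨?_, ?_, ?_⟩, ?_⟩, ?_⟩, ?_⟩
  · exact List.pairwise_of_forall_mem_list fun x hx y hy => by rw [rank_four hx, rank_four hy]
  · rw [List.pairwise_map]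
    refine (List.pairwise_lt_finRange _).imp ?_
    intro a b hab
    have hab' : (a : ℕ) < b := hab
    simp only [rank, we]
    split_ifs <;> omega
  · rw [List.pairwise_map]
    exact List.pairwise_of_forall fun _ _ => le_rfl
  · intro x hx y hy
    simp only [List.mem_map] at hx hy
    obtain ⟨k, _, rfl⟩ := hx
    obtain ⟨t, _, rfl⟩ := hy
    exact (we_bd hn hm (.inl k)).2
  · intro x hx y hy
    simp only [List.mem_cons, List.not_mem_nil, or_false] at hx
    simp only [List.mem_append, List.mem_map] at hy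
    subst hx
    rcases hy with ⟨k, _, rfl⟩ | ⟨k, _, rfl⟩
    · simp only [rank, we, fw]
      split_ifs <;> omega
    · simp only [rank, we, fw]
      omega
  · intro x hx y hy
    rw [rank_four hx]
    simp only [List.mem_append, List.mem_cons, List.not_mem_nil, or_false, List.mem_map] at hy
    rcases hy with rfl | ⟨_, _, rfl⟩ | ⟨_, _, rfl⟩
    · simp only [rank, we, fw]
      omega
    · simp only [rank, we]
      split_ifs <;> omega
    · simp only [rank]
      omega
  · intro x hx y hy
    simp only [List.mem_cons, List.not_mem_nil, or_false] at hx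
    subst hx
    exact Nat.zero_le _

/-- The instance. -/
def inst (n m : ℕ) (κ : ℕ → ℕ) (hn : 1 ≤ n) (hm : 12 * n ≤ m) : Inst where
  jobs := (jl n m).map fun j => (jf n m j, jp n m κ j)
  ne := by simp [jl]
  sorted := by
    rw [List.pairwise_map]
    exact (sorted_jl hn hm).imp fun h => jf_mono hn hm h

theorem inst_pos (n m : ℕ) (κ : ℕ → ℕ) (hn : 1 ≤ n) (hm : 12 * n ≤ m) (hκ : ∀ t, κ t ≤ 23) :
    inst n m κ hn hm ∈ Positive := by
  intro x hx
  simp only [inst, List.mem_map] at hx
  obtain ⟨j, _, rfl⟩ := hx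
  have h1 : 1 ≤ cc m := by unfold cc; omega
  have h3 : 1 ≤ bas m := Nat.one_le_two_pow
  have h2 : 1 ≤ hh m := Nat.one_le_pow _ _ h3
  constructor
  · show 1 ≤ jf n m j
    cases j with
    | a => simp only [jf, rf]; omega
    | r t => simp only [jf, rf]; omega
    | item i => simp only [jf, rf]; omega
  · show 1 ≤ jp n m κ j
    cases j with
    | a => exact h1
    | r t =>
      rw [code_dur n m κ hκ]
      simp only [code]
      rw [ofDigits_dgt]
      have : 1 ≤ (2 ^ dl m) ^ (2 * m + 2) := Nat.one_le_pow _ _ h3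
      omega
    | item i =>
      cases i with
      | inl k => exact Nat.one_le_pow _ _ h3
      | inr i => exact fs_pos i

theorem get_map' {α β : Type} (f : α → β) (l : List α) (i : Fin (l.map f).length) :
    (l.map f).get i = f (l.get (Fin.cast (by simp) i)) := by
  simp

theorem inst_feasible (n m : ℕ) (κ : ℕ → ℕ) (hn : 1 ≤ n) (hm : 12 * n ≤ m) :
    inst n m κ hn hm ∈ Feasible ↔ FeasJ (jf n m) (jp n m κ) := by
  classical
  have hl : (inst n m κ hn hm).jobs.length = (jl n m).length := by simp [inst]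
  set e : Fin (inst n m κ hn hm).jobs.length ≃ FJ n m :=
    (finCongr hl).trans (List.Nodup.getEquivOfForallMemList (jl n m) (nodup_jl n m) (mem_jl n m))
    with he
  have hget : ∀ i, (inst n m κ hn hm).jobs.get i = (jf n m (e i), jp n m κ (e i)) := by
    intro i
    have h1 : (inst n m κ hn hm).jobs.get i = (fun j => (jf n m j, jp n m κ j))
        ((jl n m).get (finCongr hl i)) := by
      exact get_map' _ (jl n m) i
    rw [h1]
    rfl
  have h1 : ∀ i, jf n m (e i) = ((inst n m κ hn hm).jobs.get i).1 := fun i => by rw [hget]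
  have h2 : ∀ i, jp n m κ (e i) = ((inst n m κ hn hm).jobs.get i).2 := fun i => by rw [hget]
  have h3 : inst n m κ hn hm ∈ Feasible ↔
      FeasJ (fun i => ((inst n m κ hn hm).jobs.get i).1)
        (fun i => ((inst n m κ hn hm).jobs.get i).2) := Iff.rfl
  rw [h3]
  constructor
  · exact feasJ_congr e h1 h2
  · refine feasJ_congr e.symm (fun i => ?_) (fun i => ?_)
    · rw [← h1]; simp
    · rw [← h2]; simp

/-! ### Polynomial time -/

/-- The codes of all the jobs, without dependent types. -/
def cdl (n m : ℕ) (κ : ℕ → ℕ) : List ((ℕ × ℕ) × List ℕ) :=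
  [((2, 0), dgt (2 * m) 23 (fun _ => 1) 0 1)] ++
  ((List.range n).flatMap (fun _ => [((2 * (4 * (2 * n)), 1), [20]), ((2 * (4 * (2 * n)), 1), [21]),
      ((2 * (4 * (2 * n)), 1), [10]), ((2 * (4 * (2 * n)), 1), [11])]) ++
  ([((2 * (6 * (2 * n)), 1), [2])] ++
  ((List.range (2 * m)).map (fun k => ((2 * (if k < m then m else m + 1), 1),
      (List.range (k + 1)).map (fun _ => 0) ++ [1])) ++
  (List.range (2 * m)).map (fun t => ((4 * m, 1),
      dgt (2 * m) (23 - κ t) (fun k => if Dd m k t then 0 else 1) 0 1)))))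

theorem flatMap_finRange_val {β : Type} (n : ℕ) (F : ℕ → List β) :
    (List.finRange n).flatMap (fun i : Fin n => F i) = (List.range n).flatMap F := by
  rw [← List.map_coe_finRange_eq_range, List.flatMap_map]

theorem map_finRange_val {β : Type} (n : ℕ) (F : ℕ → β) :
    (List.finRange n).map (fun i : Fin n => F i) = (List.range n).map F := by
  rw [← List.map_coe_finRange_eq_range, List.map_map]
  rfl

theorem cdl_eq (n m : ℕ) (κ : ℕ → ℕ) : (jl n m).map (code n m κ) = cdl n m κ := by
  unfold jl cdl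
  simp only [List.map_append, List.map_flatMap, List.map_map, List.map_cons, List.map_nil]
  congr 1
  congr 1
  · exact flatMap_finRange_val n (fun _ => [((2 * (4 * (2 * n)), 1), [20]),
      ((2 * (4 * (2 * n)), 1), [21]), ((2 * (4 * (2 * n)), 1), [10]), ((2 * (4 * (2 * n)), 1), [11])])
  · congr 1
    congr 1
    · exact map_finRange_val (2 * m) (fun k => ((2 * (if k < m then m else m + 1), 1),
        (List.range (k + 1)).map (fun _ => 0) ++ [1]))
    · exact map_finRange_val (2 * m) (fun t => ((4 * m, 1),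
        dgt (2 * m) (23 - κ t) (fun k => if Dd m k t then 0 else 1) 0 1))

theorem enc_inst (n m : ℕ) (κ : ℕ → ℕ) (hn : 1 ≤ n) (hm : 12 * n ≤ m) (hκ : ∀ t, κ t ≤ 23) :
    (encInst (inst n m κ hn hm)).map symEquiv =
      (cdl n m κ).flatMap fun c => eD (dl m) (fdg m c.1.1 c.1.2) ++ eD (dl m) c.2 := by
  rw [← cdl_eq]
  unfold encInst inst
  simp only [List.flatMap_map, List.map_flatMap, List.map_append]
  refine List.flatMap_congr fun j _ => ?_
  have hA := code_A hn hm κ j
  rw [code_freq n m κ, ← ofDigits_fdg, code_dur n m κ hκ, eD_eq _ _ (fdg_lt hA.1 hA.2),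
    eD_eq _ _ (code_lt n m κ j)]

variable {α : Type} [DE α]

theorem polyF_dgt {N x y z : α → ℕ} {f : α → ℕ → ℕ} (hN : PolyF N) (hx : PolyF x) (hy : PolyF y)
    (hz : PolyF z) (hf : PolyF (fun p : α × ℕ => f p.1 p.2)) :
    PolyF (fun a => dgt (N a) (x a) (f a) (y a) (z a)) := by
  unfold dgt
  exact PolyF.append (PolyF.cons hx (PolyF.map (f := f) (by fun_prop) hf)) (by fun_prop)

theorem polyF_fdg {m A B : α → ℕ} (hm : PolyF m) (hA : PolyF A) (hB : PolyF B) :
    PolyF (fun a => fdg (m a) (A a) (B a)) := by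
  unfold fdg
  refine polyF_dgt (f := fun a _ => A a) (by fun_prop) (by fun_prop) hB hA ?_
  exact PolyF.comp (f := A) (g := fun p : α × ℕ => p.1) hA (by fun_prop)

theorem polyF_cdl : PolyF (fun p : ℕ × Cl => cdl p.1 (hp p.1 p.2) (kap p.1 p.2)) := by
  unfold cdl
  refine PolyF.append (PolyF.cons (PolyF.pair (by fun_prop) (polyF_dgt (f := fun _ _ => 1)
    (by fun_prop) (by fun_prop) (by fun_prop) (by fun_prop) (by fun_prop))) (by fun_prop)) ?_
  refine PolyF.append (PolyF.flatMap (f := fun (p : ℕ × Cl) (_ : ℕ) =>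
    [((2 * (4 * (2 * p.1)), 1), [20]), ((2 * (4 * (2 * p.1)), 1), [21]),
      ((2 * (4 * (2 * p.1)), 1), [10]), ((2 * (4 * (2 * p.1)), 1), [11])]) (by fun_prop)
    (by fun_prop)) ?_
  refine PolyF.append (by fun_prop) (PolyF.append ?_ ?_)
  · refine PolyF.map (f := fun (p : ℕ × Cl) (k : ℕ) =>
      ((2 * (if k < hp p.1 p.2 then hp p.1 p.2 else hp p.1 p.2 + 1), 1),
        (List.range (k + 1)).map (fun _ => 0) ++ [1])) (by fun_prop) ?_
    refine PolyF.pair (PolyF.pair (PolyF.mul (by fun_prop) (PolyF.ite (by fun_prop) (by fun_prop)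
      (by fun_prop))) (by fun_prop)) (PolyF.append (PolyF.map (f := fun _ _ => 0) (by fun_prop)
      (by fun_prop)) (by fun_prop))
  · refine PolyF.map (f := fun (p : ℕ × Cl) (t : ℕ) => ((4 * hp p.1 p.2, 1),
      dgt (2 * hp p.1 p.2) (23 - kap p.1 p.2 t) (fun k => if Dd (hp p.1 p.2) k t then 0 else 1) 0 1))
      (by fun_prop) ?_
    refine PolyF.pair (by fun_prop) (polyF_dgt (α := (ℕ × Cl) × ℕ)
      (f := fun p k => if Dd (hp p.1.1 p.1.2) k p.2 then 0 else 1)
      (by fun_prop) (by fun_prop) (by fun_prop) (by fun_prop) ?_)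
    exact PolyF.ite (by fun_prop) (by fun_prop) (by fun_prop)

/-- The string of a job. -/
def jobStr (m : ℕ) (c : (ℕ × ℕ) × List ℕ) : List (Fin 3) :=
  eD (dl m) (fdg m c.1.1 c.1.2) ++ eD (dl m) c.2

theorem polyF_jobStr : PolyF (fun p : ℕ × ((ℕ × ℕ) × List ℕ) => jobStr p.1 p.2) := by
  unfold jobStr dl
  exact PolyF.append (polyF_eD (by fun_prop) (polyF_fdg (by fun_prop) (by fun_prop) (by fun_prop)))
    (polyF_eD (by fun_prop) (by fun_prop))

/-- The string of the instance. -/
def instStr (p : ℕ × Cl) : List (Fin 3) :=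
  (cdl p.1 (hp p.1 p.2) (kap p.1 p.2)).flatMap (jobStr (hp p.1 p.2))

theorem polyF_instStr : PolyF instStr := by
  have h1 : PolyF (fun q : (ℕ × Cl) × ((ℕ × ℕ) × List ℕ) => jobStr (hp q.1.1 q.1.2) q.2) :=
    PolyF.comp (f := fun p : ℕ × ((ℕ × ℕ) × List ℕ) => jobStr p.1 p.2)
      (g := fun q : (ℕ × Cl) × ((ℕ × ℕ) × List ℕ) => (hp q.1.1 q.1.2, q.2)) polyF_jobStr
      (by fun_prop)
  exact PolyF.flatMap (l := fun p : ℕ × Cl => cdl p.1 (hp p.1 p.2) (kap p.1 p.2))
    (f := fun p : ℕ × Cl => jobStr (hp p.1 p.2)) polyF_cdl h1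

theorem encInst_inst (n : ℕ) (cls : Cl) (hn : 1 ≤ n) (hm : 12 * n ≤ hp n cls) :
    (encInst (inst n (hp n cls) (kap n cls) hn hm)).map symEquiv = instStr (n, cls) :=
  enc_inst _ _ _ _ _ (kap_le _ _)

attribute [irreducible] instStr

/-- Numbering of the bits. -/
def boolEquiv : Bool ≃ Fin 2 where
  toFun b := bif b then 1 else 0
  invFun i := decide (i = 1)
  left_inv := by rintro (_|_) <;> rfl
  right_inv := by
    intro i
    fin_cases i <;> rfl

theorem polyF_toBools : PolyF (fun w : List (Fin 2) => w.map boolEquiv.symm) := by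
  refine PolyF.map (f := fun _ i => boolEquiv.symm i) (by fun_prop) ?_
  have h : PolyF (fun i : Fin 2 => (boolEquiv.symm i)) := by
    refine PolyF.of_G (PolyG.ite (PolyG.refl _) (PolyG.const _ (de false)) (PolyG.const _ (de true)))
      fun i => ?_
    fin_cases i <;> rfl
  exact PolyF.comp (f := fun i : Fin 2 => boolEquiv.symm i)
    (g := fun p : List (Fin 2) × Fin 2 => p.2) h (by fun_prop)

theorem hp_ge {n : ℕ} {cls : Cl} (hc : 1 ≤ cls.length) : 12 * n ≤ hp n cls := by
  unfold hp
  have : 9 * (2 * n) ≤ (4 * cls.length + 5) * (2 * n) := Nat.mul_le_mul_right _ (by omega)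
  omega

theorem M5 : Stmt_M5 := by
  intro n cls hn hcls h1 h2
  refine ⟨fun w => inst (n w) (hp (n w) (cls w)) (kap (n w) (cls w)) (h1 w) (hp_ge (h2 w)), ?_,
    fun w => ⟨inst_pos _ _ _ _ _ (kap_le _ _), inst_feasible _ _ _ _ _⟩⟩
  have h3 : PolyF (fun w : List Bool => ((n w, cls w) : ℕ × Cl)) := by fun_prop
  have h4 : PolyF (fun w : List Bool => instStr (n w, cls w)) :=
    PolyF.comp (f := instStr) (g := fun w : List Bool => ((n w, cls w) : ℕ × Cl)) polyF_instStr h3
  have h6 : PolyF (fun w : List (Fin 2) =>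
      instStr (n (w.map boolEquiv.symm), cls (w.map boolEquiv.symm))) :=
    PolyF.comp (f := fun w : List Bool => instStr (n w, cls w))
      (g := fun w : List (Fin 2) => w.map boolEquiv.symm) h4 polyF_toBools
  refine PolyTime.of_PolyF boolEquiv symEquiv h6 fun w => ?_
  rw [encInst_inst]
  simp

end Pool.Agent.Work.MP_a392d0_lc
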