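import Pool.Agent.Work.MP_a392d0_lc.Interface
import Pool.Agent.Work.TMLib.FP
import Mathlib.Tactic

/-!
Block M5 of `MP_a392d0_lc`, part 1: numbers given by digits, written in binary in polynomial
time.
-/

namespace Pool.Agent.Work.MP_a392d0_lc

open Pool.Agent.Work.TMLib Polynomial

/-- Remove the trailing zeros. -/
def strip (l : List Bool) : List Bool :=
  l.foldr (fun b acc => bif acc.isEmpty && !b then [] else b :: acc) []

/-- The value of a list of binary digits. -/
def ofBits (l : List Bool) : ℕ := l.foldr Nat.bit 0

theorem bits_ofBits (l : List Bool) : (ofBits l).bits = strip l := by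
  induction l with
  | nil => simp [ofBits, strip]
  | cons b l ih =>
    have h1 : ofBits (b :: l) = Nat.bit b (ofBits l) := rfl
    have h2 : strip (b :: l) = bif (strip l).isEmpty && !b then [] else b :: strip l := rfl
    rw [h1, h2, ← ih]
    by_cases h0 : ofBits l = 0
    · cases b
      · simp [h0]
      · rw [Nat.bits_append_bit _ _ (fun _ => rfl)]
        simp
    · have h3 : (ofBits l).bits.isEmpty = false := by
        cases h : (ofBits l).bits with
        | nil =>
          exfalso
          apply h0
          have := Nat.size_eq_bits_len (ofBits l)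
          rw [h] at this
          simpa [Nat.size_eq_zero] using this.symm
        | cons _ _ => rfl
      rw [Nat.bits_append_bit _ _ (fun h => absurd h h0), h3]
      simp

theorem sz_strip_foldl (l acc : List Bool) :
    sz (l.foldl (fun acc b => bif acc.isEmpty && !b then [] else b :: acc) acc) ≤
      sz acc + sz l := by
  induction l generalizing acc with
  | nil => simp
  | cons b l ih =>
    simp only [List.foldl_cons, sz_cons]
    refine (ih _).trans ?_
    cases h : (acc.isEmpty && !b)
    · simp
      omega
    · simp
      omega

theorem polyF_strip' : PolyF strip := by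
  have h : PolyF (fun l : List Bool => (l.reverse).foldl
      (fun acc b => bif acc.isEmpty && !b then [] else b :: acc) []) := by
    refine PolyF.foldl_add (l := fun l : List Bool => l.reverse) (g := fun _ => ([] : List Bool))
      (h := fun _ (acc : List Bool) b => bif acc.isEmpty && !b then [] else b :: acc)
      (by fun_prop) (by fun_prop) (by fun_prop) 4 ?_
    intro l acc b _
    have := sz_bool_le b
    cases h : (acc.isEmpty && !b)
    · simp
      omega
    · simp
  refine h.congrF fun l => ?_
  rw [List.foldl_reverse]
  rfl

@[fun_prop]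
theorem polyF_strip {α : Type} [DE α] {f : α → List Bool} (hf : PolyF f) :
    PolyF (fun a => strip (f a)) := PolyF.comp (f := strip) polyF_strip' hf

/-- Binary digits of `d`, padded to length `L`. -/
def padb (L d : ℕ) : List Bool := d.bits ++ (List.range (L - d.bits.length)).map fun _ => false

theorem length_padb {L d : ℕ} (h : d < 2 ^ L) : (padb L d).length = L := by
  have := Nat.size_le.2 h
  unfold padb
  simp only [List.length_append, List.length_map, List.length_range]
  rw [Nat.size_eq_bits_len]
  omega

theorem ofBits_append (l l' : List Bool) : ofBits (l ++ l') = ofBits l + 2 ^ l.length * ofBits l' := by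
  induction l with
  | nil => simp [ofBits]
  | cons b l ih =>
    have h1 : ∀ u, ofBits (b :: u) = Nat.bit b (ofBits u) := fun _ => rfl
    rw [List.cons_append, h1, h1, ih]
    simp only [Nat.bit_val, List.length_cons, pow_succ]
    ring

theorem ofBits_bits (n : ℕ) : ofBits n.bits = n := by
  induction n using Nat.binaryRec' with
  | zero => simp [ofBits]
  | bit b n hb ih =>
    rw [Nat.bits_append_bit n b hb]
    show Nat.bit b (ofBits n.bits) = _
    rw [ih]

theorem ofBits_false (k : ℕ) : ofBits ((List.range k).map fun _ => false) = 0 := by
  induction k with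
  | zero => rfl
  | succ k ih =>
    rw [List.range_succ, List.map_append, ofBits_append, ih]
    simp [ofBits]

theorem ofBits_padb (L d : ℕ) : ofBits (padb L d) = d := by
  unfold padb
  rw [ofBits_append, ofBits_bits, ofBits_false]
  simp

theorem ofBits_flatMap (L : ℕ) (ds : List ℕ) (h : ∀ d ∈ ds, d < 2 ^ L) :
    ofBits (ds.flatMap (padb L)) = Nat.ofDigits (2 ^ L) ds := by
  induction ds with
  | nil => simp [ofBits]
  | cons d ds ih =>
    rw [List.flatMap_cons, ofBits_append, ofBits_padb, length_padb (h d (by simp)),
      ih (fun x hx => h x (by simp [hx])), Nat.ofDigits_cons]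

theorem bits_ofDigits (L : ℕ) (ds : List ℕ) (h : ∀ d ∈ ds, d < 2 ^ L) :
    (Nat.ofDigits (2 ^ L) ds).bits = strip (ds.flatMap (padb L)) := by
  rw [← ofBits_flatMap L ds h, bits_ofBits]

/-- Numbering of the output alphabet. -/
def symEquiv : Sym ≃ Fin 3 where
  toFun s := match s with
    | .zero => 0
    | .one => 1
    | .stop => 2
  invFun i := match i with
    | 0 => .zero
    | 1 => .one
    | 2 => .stop
  left_inv := by rintro (_|_|_) <;> rfl
  right_inv := by
    intro i
    fin_cases i <;> rfl

instance : Fintype Sym := Fintype.ofEquiv _ symEquiv.symm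

/-- The string of the number with digits `ds` in base `2 ^ L`, over the numbered alphabet. -/
def eD (L : ℕ) (ds : List ℕ) : List (Fin 3) :=
  (strip (ds.flatMap (padb L))).map (fun b => bif b then 1 else 0) ++ [2]

theorem eD_eq (L : ℕ) (ds : List ℕ) (h : ∀ d ∈ ds, d < 2 ^ L) :
    (encNat (Nat.ofDigits (2 ^ L) ds)).map symEquiv = eD L ds := by
  unfold encNat eD
  rw [List.map_append, List.map_map, bits_ofDigits L ds h]
  congr 1
  apply List.map_congr_left
  intro b _
  cases b <;> rfl

@[fun_prop]
theorem polyF_padb {α : Type} [DE α] {f g : α → ℕ} (hf : PolyF f) (hg : PolyF g) :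
    PolyF (fun a => padb (f a) (g a)) := by
  unfold padb
  refine PolyF.append (by fun_prop) (PolyF.map (f := fun _ _ => false) (by fun_prop) (by fun_prop))

@[fun_prop]
theorem polyF_eD {α : Type} [DE α] {f : α → ℕ} {g : α → List ℕ} (hf : PolyF f) (hg : PolyF g) :
    PolyF (fun a => eD (f a) (g a)) := by
  unfold eD
  refine PolyF.append (PolyF.map (f := fun _ b => bif b then (1 : Fin 3) else 0)
    (polyF_strip (PolyF.flatMap (f := fun a d => padb (f a) d) hg ?_)) (by fun_prop)) (by fun_prop)
  exact polyF_padb (PolyF.comp (f := f) (g := fun p : α × ℕ => p.1) hf (by fun_prop)) (by fun_prop)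

end Pool.Agent.Work.MP_a392d0_lc
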