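import Pool.Agent.Work.MP_a392d0_lc_helper98.M5Bits
import Mathlib.Tactic

/-!
Block M5 of `MP_a392d0_lc`, part 2: the capacities of the bins are computed in polynomial time.
-/

namespace Pool.Agent.Work.MP_a392d0_lc

open Pool.Agent.Work.TMLib Polynomial

variable {α β : Type} [DE α] [DE β]

theorem div_eq_filter (a b : ℕ) :
    ((List.range a).filter fun q => decide (0 < b) && decide ((q + 1) * b ≤ a)).length = a / b := by
  rcases Nat.eq_zero_or_pos b with rfl | hb
  · simp
  · have h1 : (List.range a).filter (fun q => decide (0 < b) && decide ((q + 1) * b ≤ a)) =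
        (List.range a).filter (fun q => decide (q < a / b)) := by
      apply List.filter_congr
      intro q _
      rw [decide_eq_true hb, Bool.true_and]
      apply decide_eq_decide.2
      rw [← Nat.le_div_iff_mul_le hb]
      exact Nat.succ_le_iff
    rw [h1]
    have h2 : a / b ≤ a := Nat.div_le_self a b
    have h3 : List.range a = List.range (a / b) ++ (List.range (a - a / b)).map (a / b + ·) := by
      rw [← List.range_add]
      congr 1
      omega
    rw [h3, List.filter_append]
    have h4 : (List.range (a / b)).filter (fun q => decide (q < a / b)) = List.range (a / b) := by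
      rw [List.filter_eq_self]
      intro q hq
      simpa using hq
    have h5 : ((List.range (a - a / b)).map (a / b + ·)).filter (fun q => decide (q < a / b)) = [] := by
      rw [List.filter_eq_nil_iff]
      intro q hq
      simp only [List.mem_map] at hq
      obtain ⟨x, _, rfl⟩ := hq
      simp
    rw [h4, h5]
    simp

@[fun_prop]
theorem polyF_div {f g : α → ℕ} (hf : PolyF f) (hg : PolyF g) : PolyF (fun a => f a / g a) := by
  have h : PolyF (fun a => ((List.range (f a)).filter fun q =>
      decide (0 < g a) && decide ((q + 1) * g a ≤ f a)).length) := by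
    refine PolyF.length (PolyF.filter (l := fun a => List.range (f a))
      (f := fun a q => decide (0 < g a) && decide ((q + 1) * g a ≤ f a)) (by fun_prop) ?_)
    have hf' : PolyF (fun p : α × ℕ => f p.1) := PolyF.comp (f := f) hf (by fun_prop)
    have hg' : PolyF (fun p : α × ℕ => g p.1) := PolyF.comp (f := g) hg (by fun_prop)
    fun_prop
  exact h.congrF fun a => div_eq_filter _ _

@[fun_prop]
theorem polyF_mod {f g : α → ℕ} (hf : PolyF f) (hg : PolyF g) : PolyF (fun a => f a % g a) := by
  have h : PolyF (fun a => f a - g a * (f a / g a)) := by fun_prop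
  refine h.congrF fun a => ?_
  have := Nat.mod_add_div (f a) (g a)
  omega

theorem polyF_mem [DecidableEq β] [PEq β] {f : α → β} {g : α → List β}
    [DecidablePred fun a => f a ∈ g a] (hf : PolyF f)
    (hg : PolyF g) : PolyF (fun a => decide (f a ∈ g a)) := by
  have h : PolyF (fun a => !((g a).all fun y => !(decide (y = f a)))) := by
    refine PolyF.not (PolyF.all (f := fun a y => !(decide (y = f a))) hg ?_)
    have hf' : PolyF (fun p : α × β => f p.1) := PolyF.comp (f := f) hf (by fun_prop)
    fun_prop
  refine h.congrF fun a => ?_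
  by_cases hm : f a ∈ g a
  · simp [hm]
  · rw [decide_eq_false hm]
    simp only [Bool.not_eq_false', List.all_eq_true, Bool.not_eq_true', decide_eq_false_iff_not]
    intro y hy h
    exact hm (h ▸ hy)

/-- The capacity of a bin of role `r` (`hp' = hp n cls`). -/
def kapv (n : ℕ) (cls : Cl) (x : ℕ) (r : Bool) : ℕ :=
    (if (decide (x / hp n cls % 2 = 1)) = r then 20 else 10) + 1 +
    (if x % hp n cls / (2 * n) < 4 * cls.length ∧
        (r, (x % hp n cls % (2 * n)) / 2, decide ((x % hp n cls % (2 * n)) % 2 = 1)) ∈
          cls.getD (x % hp n cls / (2 * n) / 4) [] then 1 else 0) +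
    (if x % hp n cls / (2 * n) = 4 * cls.length + 1 ∧ x % hp n cls % (2 * n) = 0 then 2 else 0)

theorem match_role (M blk : ℕ) (F : Bool → ℕ) :
    (match role M blk with
      | none => 0
      | some r => F r) =
    if blk < 4 * M then
      if blk % 4 = 0 then F false else if blk % 4 = 1 then F true else 0
    else if blk = 4 * M ∨ blk = 4 * M + 2 then F false
    else if blk = 4 * M + 1 then F true
    else 0 := by
  unfold role
  split_ifs <;> rfl

theorem kap_eq (n : ℕ) (cls : Cl) (x : ℕ) : kap n cls x =
    if x % hp n cls / (2 * n) < 4 * cls.length then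
      if x % hp n cls / (2 * n) % 4 = 0 then kapv n cls x false
      else if x % hp n cls / (2 * n) % 4 = 1 then kapv n cls x true else 0
    else if x % hp n cls / (2 * n) = 4 * cls.length ∨ x % hp n cls / (2 * n) = 4 * cls.length + 2
      then kapv n cls x false
    else if x % hp n cls / (2 * n) = 4 * cls.length + 1 then kapv n cls x true
    else 0 := by
  have key : ∀ r, sb (xor r (decide (x / hp n cls % 2 = 1))) =
      if (decide (x / hp n cls % 2 = 1)) = r then 20 else 10 := by
    intro r
    cases r <;> cases (decide (x / hp n cls % 2 = 1)) <;> rfl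
  have hk : kap n cls x = (match role cls.length (x % hp n cls / (2 * n)) with
      | none => 0
      | some r => kapv n cls x r) := by
    unfold kap
    cases role cls.length (x % hp n cls / (2 * n)) with
    | none => rfl
    | some r => simp only [kapv, key]
  rw [hk, match_role]

theorem kap_le (n : ℕ) (cls : Cl) (x : ℕ) : kap n cls x ≤ 23 := by
  have h : ∀ r, kapv n cls x r ≤ 23 := by
    intro r
    unfold kapv
    split_ifs <;> omega
  rw [kap_eq]
  have h1 := h false
  have h2 := h true
  split_ifs <;> omega

@[fun_prop]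
theorem polyF_hp {f : α → ℕ} {g : α → Cl} (hf : PolyF f) (hg : PolyF g) :
    PolyF (fun a => hp (f a) (g a)) := by
  unfold hp
  fun_prop

theorem polyF_kapv (r : Bool) : PolyF (fun p : (ℕ × Cl) × ℕ => kapv p.1.1 p.1.2 p.2 r) := by
  unfold kapv
  refine PolyF.add (PolyF.add (PolyF.add (PolyF.ite (by fun_prop) (by fun_prop) (by fun_prop))
    (by fun_prop)) (PolyF.ite ?_ (by fun_prop) (by fun_prop))) (PolyF.ite ?_ (by fun_prop)
    (by fun_prop))
  · refine PolyF.decideAnd (by fun_prop) (polyF_mem ?_ ?_)
    · fun_prop
    · fun_prop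
  · fun_prop

theorem polyF_kap' : PolyF (fun p : (ℕ × Cl) × ℕ => kap p.1.1 p.1.2 p.2) := by
  have h1 := polyF_kapv false
  have h2 := polyF_kapv true
  simp only [kap_eq]
  refine PolyF.ite (by fun_prop) (PolyF.ite (by fun_prop) h1 (PolyF.ite (by fun_prop) h2
    (by fun_prop))) (PolyF.ite (by fun_prop) h1 (PolyF.ite (by fun_prop) h2 (by fun_prop)))

@[fun_prop]
theorem polyF_kap {f h : α → ℕ} {g : α → Cl} (hf : PolyF f) (hg : PolyF g) (hh : PolyF h) :
    PolyF (fun a => kap (f a) (g a) (h a)) :=
  PolyF.comp (f := fun p : (ℕ × Cl) × ℕ => kap p.1.1 p.1.2 p.2)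
    (g := fun a => ((f a, g a), h a)) polyF_kap' (by fun_prop)

@[fun_prop]
theorem polyF_Dd {f g h : α → ℕ} (hf : PolyF f) (hg : PolyF g) (hh : PolyF h) :
    PolyF (fun a => decide (Dd (f a) (g a) (h a))) := by
  have h : PolyF (fun a => decide ((g a < f a ∧ (h a = g a ∨ h a = g a + f a)) ∨
      (¬ (g a < f a) ∧ (h a = g a - f a ∨ h a = (g a + 1) % (2 * f a))))) := by
    fun_prop
  refine h.congrF fun a => ?_
  unfold Dd
  by_cases hc : g a < f a
  · simp [hc]
  · simp [hc]

end Pool.Agent.Work.MP_a392d0_lc
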